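import Pool.Agent.Y251.LT.Stm

/-!
# Project LT, part AFF: linear growth implies affine
-/

set_option autoImplicit false

open MeasureTheory Complex Metric Set Filter Topology
open scoped Real ComplexConjugate

namespace Pool.Agent.Y252.LT.Aff

open Pool.Agent.Y251.LT

theorem aff : S_AFF := by
  intro φ l ρ C hφ hinj hρ hl hloc hgrow
  -- the derivative at `0` does not vanish
  have hb0 : ball (0 : ℂ) ρ ∈ 𝓝 (0 : ℂ) := ball_mem_nhds _ hρ
  have hl0 : DifferentiableAt ℂ l 0 := (hl 0 (mem_ball_self hρ)).differentiableAt hb0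
  have hd1 : HasDerivAt (fun z : ℂ => z * Complex.exp (l z)) (Complex.exp (l 0)) 0 := by
    have h := (hasDerivAt_id' (0 : ℂ)).mul (hl0.hasDerivAt.cexp)
    refine HasDerivAt.congr_deriv (f := fun z : ℂ => z * Complex.exp (l z)) h ?_
    simp
  have hd2 : HasDerivAt (fun z : ℂ => φ (z * Complex.exp (l z)))
      (deriv φ 0 * Complex.exp (l 0)) 0 := by
    have h0 : HasDerivAt φ (deriv φ 0) ((0 : ℂ) * Complex.exp (l 0)) := by
      rw [zero_mul]
      exact (hφ 0).hasDerivAt
    exact h0.comp (0 : ℂ) hd1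
  have hd3 : HasDerivAt (fun z : ℂ => φ (z * Complex.exp (l z))) 1 0 := by
    have h := (hasDerivAt_id (0 : ℂ)).const_add (φ 0)
    refine h.congr_of_eventuallyEq ?_
    filter_upwards [hb0] with z hz
    exact (hloc z hz).2
  have hd4 : deriv φ 0 * Complex.exp (l 0) = 1 := hd2.unique hd3
  have hd : deriv φ 0 ≠ 0 := by
    intro h
    rw [h, zero_mul] at hd4
    exact zero_ne_one hd4
  -- the difference quotient
  have hs : Differentiable ℂ (dslope φ 0) := by
    rw [← differentiableOn_univ]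
    exact (Complex.differentiableOn_dslope univ_mem).2 hφ.differentiableOn
  have hs0 : dslope φ 0 0 = deriv φ 0 := dslope_same _ _
  have hmul : ∀ w, w * dslope φ 0 w = φ w - φ 0 := by
    intro w
    have := sub_smul_dslope φ 0 w
    rw [sub_zero, smul_eq_mul] at this
    exact this
  obtain ⟨c, hc⟩ : ∃ c : ℝ, c = ‖deriv φ 0‖ / 2 := ⟨_, rfl⟩
  have hc0 : 0 < c := by
    rw [hc]
    exact half_pos (norm_pos_iff.2 hd)
  have hev : ∀ᶠ w in 𝓝 (0 : ℂ), c < ‖dslope φ 0 w‖ ∧ ‖φ w - φ 0‖ < ρ * Real.exp (-1) ∧ ‖w‖ < 1 := by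
    refine Filter.Eventually.and ?_ (Filter.Eventually.and ?_ ?_)
    · have h1 : Tendsto (fun w => ‖dslope φ 0 w‖) (𝓝 0) (𝓝 ‖deriv φ 0‖) := by
        rw [← hs0]
        exact (hs.continuous.norm.tendsto 0)
      refine h1.eventually_const_lt ?_
      rw [hc]
      exact half_lt_self (norm_pos_iff.2 hd)
    · have h1 : Tendsto (fun w => ‖φ w - φ 0‖) (𝓝 0) (𝓝 0) := by
        have h2 : Continuous fun w => ‖φ w - φ 0‖ := (hφ.continuous.sub continuous_const).norm
        have := h2.tendsto 0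
        simpa using this
      exact h1.eventually_lt_const (by positivity)
    · have h1 : Tendsto (fun w : ℂ => ‖w‖) (𝓝 0) (𝓝 0) := by
        have := (continuous_norm (E := ℂ)).tendsto 0
        simpa using this
      exact h1.eventually_lt_const one_pos
  obtain ⟨δ, hδ, hδe⟩ := Metric.eventually_nhds_iff.1 hev
  -- the key estimate near `0`
  have key : ∀ w : ℂ, w ≠ 0 → ‖w‖ < δ → 0 ≤ C ∧ ‖φ (conj w⁻¹)‖ ≤ C / (c * ‖w‖) := by
    intro w hw hwδ
    obtain ⟨k1, k2, k3⟩ := hδe (by rw [dist_zero_right]; exact hwδ)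
    obtain ⟨z, hz⟩ : ∃ z : ℂ, z = φ w - φ 0 := ⟨_, rfl⟩
    rw [← hz] at k2
    have hw0 : 0 < ‖w‖ := norm_pos_iff.2 hw
    have hzn : c * ‖w‖ < ‖z‖ := by
      rw [hz, ← hmul w, norm_mul, mul_comm]
      exact mul_lt_mul_of_pos_left k1 hw0
    have hz0 : 0 < ‖z‖ := lt_trans (mul_pos hc0 hw0) hzn
    have hzne : z ≠ 0 := norm_pos_iff.1 hz0
    have he1 : Real.exp (-1) < 1 := by
      rw [Real.exp_lt_one_iff]
      norm_num
    have hzρ : z ∈ ball (0 : ℂ) ρ := by
      rw [mem_ball_zero_iff]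
      refine k2.trans ?_
      nlinarith
    obtain ⟨g1, g2⟩ := hloc z hzρ
    have hww : z * Complex.exp (l z) = w := by
      refine hinj ?_ ?_ ?_
      · rw [mem_ball_zero_iff]
        exact g1
      · rw [mem_ball_zero_iff]
        exact k3
      · rw [g2, hz]
        ring
    have hexp : Complex.exp (-(-Complex.log z)) = z := by
      rw [neg_neg]
      exact Complex.exp_log hzne
    have hre : (-Complex.log z).re = -Real.log ‖z‖ := by
      rw [Complex.neg_re, Complex.log_re]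
    have hlt : -Real.log ρ + 1 < (-Complex.log z).re := by
      rw [hre]
      have h1 : Real.log ‖z‖ < Real.log (ρ * Real.exp (-1)) := Real.log_lt_log hz0 k2
      rw [Real.log_mul hρ.ne' (Real.exp_ne_zero _), Real.log_exp] at h1
      linarith
    have hg := hgrow (-Complex.log z) hlt
    rw [hexp, hre] at hg
    have he2 : Complex.exp (-(-(-Complex.log z) + l z)) = w⁻¹ := by
      rw [neg_neg, Complex.exp_neg, Complex.exp_add, Complex.exp_log hzne, hww]
    rw [he2, RCLike.norm_conj, Real.exp_neg, Real.exp_log hz0] at hg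
    have hC : 0 ≤ C := by
      have h1 : 0 ≤ C * ‖z‖⁻¹ := (norm_nonneg _).trans hg
      exact nonneg_of_mul_nonneg_left h1 (inv_pos.2 hz0)
    refine ⟨hC, hg.trans ?_⟩
    rw [← div_eq_mul_inv]
    exact div_le_div_of_nonneg_left hC (mul_pos hc0 hw0) hzn.le
  -- linear growth
  have hC : 0 ≤ C := by
    refine (key ((δ / 2 : ℝ) : ℂ) ?_ ?_).1
    · exact_mod_cast (half_pos hδ).ne'
    · rw [Complex.norm_real, Real.norm_eq_abs, abs_of_pos (half_pos hδ)]
      exact half_lt_self hδ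
  have hgr : ∀ v : ℂ, 1 / δ < ‖v‖ → ‖φ v‖ ≤ C / c * ‖v‖ := by
    intro v hv
    have hv0 : 0 < ‖v‖ := lt_trans (by positivity) hv
    have hvne : v ≠ 0 := norm_pos_iff.1 hv0
    have h1 := (key (conj v)⁻¹ (inv_ne_zero ((map_ne_zero _).2 hvne)) (by
      rw [norm_inv, RCLike.norm_conj, inv_lt_comm₀ hv0 hδ, ← one_div]
      exact hv)).2
    rw [inv_inv, Complex.conj_conj, norm_inv, RCLike.norm_conj] at h1
    refine h1.trans (le_of_eq ?_)
    field_simp
  -- the difference quotient is bounded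
  obtain ⟨R, hR⟩ : ∃ R : ℝ, R = 1 / δ + 1 := ⟨_, rfl⟩
  have hR1 : 1 ≤ R := by
    rw [hR]
    have : 0 < 1 / δ := by positivity
    linarith
  obtain ⟨K, hK⟩ := (isCompact_closedBall (0 : ℂ) R).exists_bound_of_continuousOn
    hs.continuous.continuousOn
  have hbd : Bornology.IsBounded (range (dslope φ 0)) := by
    rw [isBounded_iff_forall_norm_le]
    refine ⟨max K (C / c + ‖φ 0‖), ?_⟩
    rintro _ ⟨v, rfl⟩
    rcases le_or_gt ‖v‖ R with h | h
    · exact (hK v (by rw [mem_closedBall_zero_iff]; exact h)).trans (le_max_left _ _)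
    · refine le_trans ?_ (le_max_right _ _)
      have hv0 : 0 < ‖v‖ := by linarith
      have hv1 : 1 ≤ ‖v‖ := by linarith
      have h1 : ‖φ v‖ ≤ C / c * ‖v‖ := hgr v (by linarith)
      have h2 : ‖v‖ * ‖dslope φ 0 v‖ ≤ ‖v‖ * (C / c + ‖φ 0‖) := by
        rw [← norm_mul, hmul v]
        refine (norm_sub_le _ _).trans ?_
        nlinarith [norm_nonneg (φ 0)]
      exact le_of_mul_le_mul_left h2 hv0
  refine ⟨dslope φ 0 0, fun w => ?_⟩
  have h1 : dslope φ 0 w = dslope φ 0 0 := hs.apply_eq_apply_of_bounded hbd w 0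
  have h2 := hmul w
  rw [h1] at h2
  linear_combination -h2

end Pool.Agent.Y252.LT.Aff
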